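import Pool.Agent.ISB.StmtsA

/-! Squad ISB (MP_4f548a_al), row EON: the two identities. -/

set_option autoImplicit false

namespace Pool.Agent.ISB.H68

open scoped Classical

theorem eon (cal : CalStmt) (_eig : EigStmt) (mlt : MltStmt) : EonStmt := by
  intro F L _ _ _ r n σ ζ R H hA hCov
  obtain ⟨-, -, -, -, c5, -, -, c8⟩ := cal F L
  obtain ⟨m1, -, m3, m4⟩ := mlt F L
  have hfix : ∀ c, c ∈ R → σ c = c → ∀ k, c ∈ H k := by
    intro c hc hσ k
    obtain ⟨k0, -, hx⟩ := hCov.cov c hc
    have h1 : ∀ j, c ∈ H (k0 + j) := by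
      intro j
      induction j with
      | zero => exact hx
      | succ j ih =>
        have h2 := hCov.shf (k0 + j) c ih
        rw [hσ] at h2
        exact h2
    have h3 : ∀ m, H (k + m * r) = H k := by
      intro m
      induction m with
      | zero => simp
      | succ m ih =>
        rw [← ih, ← hCov.per (k + m * r)]
        congr 1
        ring
    have h4 : k0 + (k + k0 * r - k0) = k + k0 * r := by
      have h5 : k0 ≤ k0 * r := Nat.le_mul_of_pos_right k0 hA.pos
      omega
    have h6 := h1 (k + k0 * r - k0)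
    rw [h4, h3 k0] at h6
    exact h6
  have hW : Submodule.span F R ⊓ W σ ζ 0 ≤ Submodule.span F {c | c ∈ R ∧ σ c = c} := by
    rintro z ⟨hz, hz0⟩
    refine hCov.fix z hz ?_
    have h1 : σ z = ζ ^ 0 • z := hz0
    rw [h1, pow_zero, one_smul]
  refine ⟨⟨?_, ?_⟩, ?_, ?_⟩
  · intro a ha b hb
    have h1 : ⁅a, b⁆ ∈ br (Submodule.span F R) (Submodule.span F R) :=
      Submodule.subset_span ⟨a, ha, b, hb, rfl⟩
    rw [c5 R R] at h1
    refine Submodule.span_mono ?_ h1
    rintro z ⟨x, hx, y, hy, rfl⟩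
    exact hCov.brk x hx y hy
  · intro a ha
    have h1 : Submodule.map σ (Submodule.span F R) ≤ Submodule.span F R := by
      rw [Submodule.map_span_le]
      intro x hx
      exact Submodule.subset_span (hCov.stb x hx)
    exact h1 ⟨a, ha, rfl⟩
  · refine le_bot_iff.1 (le_trans (c8 _ _ _ _ n le_rfl hW) ?_)
    rw [m1 R _ n, Submodule.span_le]
    rintro z ⟨u, hu, cs, hl, hcs, rfl⟩
    obtain ⟨k, -, hk⟩ := hCov.cov u hu
    have h1 : ln u cs = 0 := hCov.nil k u hk cs hl fun c hc => hfix c (hcs c hc).1 (hcs c hc).2 k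
    rw [h1]
    exact Submodule.zero_mem _
  · intro k u hu ys hl hys
    refine Submodule.span_induction (p := fun u _ => ln u ys = 0) ?_ ?_ ?_ ?_ (hW hu)
    · intro c hc
      exact hCov.nil k c (hfix c hc.1 hc.2 k) ys hl hys
    · have h1 := m4 (0 : F) 0 ys
      rw [zero_smul, zero_smul] at h1
      exact h1
    · intro x y _ _ hx hy
      show ln (x + y) ys = 0
      rw [m3, hx, hy, add_zero]
    · intro a x _ hx
      show ln (a • x) ys = 0
      rw [m4, hx, smul_zero]

end Pool.Agent.ISB.H68
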