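import Pool.Agent.ISB.StmtsC
import Pool.Agent.Helper41_Isbell.Nilp

set_option autoImplicit false

namespace Pool.Agent.ISB.H68F

open scoped Classical commutatorElement
open MulAction

theorem card_quot {S X : Type} [Group S] [MulAction S X] [Finite X] (m r : ℕ) (hm : 0 < m)
    (hX : Nat.card X = m * r) (h : ∀ x : X, Nat.card (orbit S x) = m) :
    Nat.card (orbitRel.Quotient S X) = r := by
  have := Fintype.ofFinite (orbitRel.Quotient S X)
  have h1 := Nat.card_congr (selfEquivSigmaOrbits' S X)
  rw [Nat.card_sigma, hX] at h1
  have h2 : ∀ w : orbitRel.Quotient S X, Nat.card (orbitRel.Quotient.orbit w) = m := by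
    intro w
    induction w using Quotient.inductionOn' with
    | h x => exact h x
  rw [Nat.card_eq_fintype_card]
  have h3 : ∑ w : orbitRel.Quotient S X, Nat.card (orbitRel.Quotient.orbit w) =
      Fintype.card (orbitRel.Quotient S X) * m := by
    rw [Finset.sum_congr rfl (fun w _ => h2 w), Finset.sum_const, Finset.card_univ, smul_eq_mul]
  have h4 : m * r = Fintype.card (orbitRel.Quotient S X) * m := by
    rw [h1, ← h3]
  have h5 : m * r = m * Fintype.card (orbitRel.Quotient S X) := by rw [h4, Nat.mul_comm]
  exact (Nat.eq_of_mul_eq_mul_left hm h5).symm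

theorem fpf : FpfStmt := by
  intro G Ω _ _ _ _ r a c P hr hcard horb hnil hlt
  have hq := card_quot (S := P) (X := Ω) (2 ^ a) r (by positivity) hcard horb
  obtain ⟨g, hg⟩ := Pool.Agent.Helper41.Isbell.exists_fpf_of_central_chain (S := P) (X := Ω) c
    (fun j => (⊤ : Subgroup P).lowerCentralSeries (c - j)) (fun j => inferInstance)
    (by
      intro z hz x
      have h1 : (z : G) ∈ P.lowerCentralSeries c := by
        rw [← Subgroup.top_subtype_lowerCentralSeries]
        exact ⟨z, by simpa using hz, rfl⟩
      rw [hnil, Subgroup.mem_bot] at h1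
      show (z : G) • x = x
      rw [h1, one_smul])
    (by simp)
    (by
      intro j hj
      apply Subgroup.lowerCentralSeries_antitone
      omega)
    (by
      intro j hj z hz g
      have h2 : c - j = (c - (j + 1)) + 1 := by omega
      show ⁅z, g⁆ ∈ (⊤ : Subgroup P).lowerCentralSeries (c - j)
      rw [h2, Subgroup.lowerCentralSeries_succ]
      exact Subgroup.commutator_mem_commutator hz (Subgroup.mem_top g))
    r (2 ^ a) hq.le (fun x => by
      rw [← horb x]
      exact le_of_eq rfl) hlt
  exact ⟨g, g.2, fun x => hg x⟩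

end Pool.Agent.ISB.H68F
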